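import Pool.Agent.H79.SG.All

/-!
An upper bound for the number of solutions of `σ₂(n) = σ₂(n + 2)`.
-/

namespace Pool.Agent.Results.MP_cb3c8e_nt.FewSolutions

/-- There is a constant `C` such that for every integer `N ≥ 3` at most
`C N exp (- (1 / 40) sqrt (log N / log log N))` integers `1 ≤ n ≤ N` satisfy `σ₂(n) = σ₂(n + 2)`. -/
theorem result : ∃ C : ℝ, 0 < C ∧ ∀ N : ℕ, 3 ≤ N →
    ({n : ℕ | 0 < n ∧ n ≤ N ∧ ∑ d ∈ n.divisors, d ^ 2 = ∑ d ∈ (n + 2).divisors, d ^ 2}.ncard : ℝ) ≤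
      C * N * Real.exp (-(1 / 40 * Real.sqrt (Real.log N / Real.log (Real.log N)))) :=
  Pool.Agent.H79.SG.all

end Pool.Agent.Results.MP_cb3c8e_nt.FewSolutions
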