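import Pool.Agent.H77.SG.Mn
import Pool.Agent.H77.SG.Par
import Pool.Agent.H77.SG.Up
import Pool.Agent.H77.SG.Res
import Pool.Agent.H77.SG.Five
import Pool.Agent.H77.SG.Val
import Pool.Agent.H77.SG.Cnt
import Pool.Agent.H77.SG.W35

set_option autoImplicit false

/-!
# MP_cb3c8e_nt: equal sums of squared divisors at distance two, odd values
-/

namespace Pool.Agent.Results.MP_cb3c8e_nt.OddValues

open Pool.Agent.H77.SG

/-- (1), (2), (3) are about every solution `n` of `σ₂(n) = σ₂(n+2)`; (4) counts the solutions with odd `σ₂(n)`. -/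
theorem result :
    (∀ n : ℕ, 0 < n → ∑ d ∈ n.divisors, d ^ 2 = ∑ d ∈ (n + 2).divisors, d ^ 2 →
      ((Odd (∑ d ∈ n.divisors, d ^ 2) ∨
          ∃ a : ℕ, n = a ^ 2 ∨ n = 2 * a ^ 2 ∨ n + 2 = a ^ 2 ∨ n + 2 = 2 * a ^ 2) →
        ∃ w y : ℕ, n = 16 * w ^ 2 ∧ n + 2 = 2 * y ^ 2 ∧ 35 ∣ w ∧ 99 ∣ y ∧
          ∃ p : ℕ, p.Prime ∧ (p % 5 = 1 ∨ p % 5 = 4) ∧ w.factorization p % 5 = 2) ∧
      (∀ a m b k : ℕ, n = 2 ^ a * m → Odd m → n + 2 = 2 ^ b * k → Odd k →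
        padicValNat 2 m.divisors.card = padicValNat 2 k.divisors.card) ∧
      (∀ a m b k : ℕ, n = 3 ^ a * m → ¬ 3 ∣ m → n + 2 = 3 ^ b * k → ¬ 3 ∣ k →
        padicValNat 3 m.divisors.card = padicValNat 3 k.divisors.card) ∧
      (Odd n → Squarefree n → Squarefree (n + 2) → n.primeFactors.card = (n + 2).primeFactors.card)) ∧
    (∀ N : ℕ, 0 < N → ((Finset.Icc 1 N).filter fun n => ∑ d ∈ n.divisors, d ^ 2 = ∑ d ∈ (n + 2).divisors, d ^ 2 ∧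
      Odd (∑ d ∈ n.divisors, d ^ 2)).card ≤ Nat.log 25 N + 1) := by
  have key : ∀ n : ℕ, 0 < n → ∑ d ∈ n.divisors, d ^ 2 = ∑ d ∈ (n + 2).divisors, d ^ 2 →
      (Odd (∑ d ∈ n.divisors, d ^ 2) ∨
          ∃ a : ℕ, n = a ^ 2 ∨ n = 2 * a ^ 2 ∨ n + 2 = a ^ 2 ∨ n + 2 = 2 * a ^ 2) →
        ∃ w y : ℕ, n = 16 * w ^ 2 ∧ n + 2 = 2 * y ^ 2 ∧ 35 ∣ w ∧ 99 ∣ y ∧
          ∃ p : ℕ, p.Prime ∧ (p % 5 = 1 ∨ p % 5 = 4) ∧ w.factorization p % 5 = 2 := by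
    intro n hn h hs
    have h' : s2 n = s2 (n + 2) := h
    obtain ⟨w, y, h1, h2, h3⟩ := main par up res n hn h' hs
    have hw : 0 < w := by
      rcases Nat.eq_zero_or_pos w with h0 | h0
      · subst h0
        omega
      · exact h0
    have hy : Odd y := by
      rcases Nat.even_or_odd y with he | ho
      · exfalso
        obtain ⟨c, rfl⟩ := he
        have : (c + c) ^ 2 = 4 * c ^ 2 := by ring
        omega
      · exact ho
    have h4 : s2 (16 * w ^ 2) = s2 (2 * y ^ 2) := by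
      rw [← h1, ← h2]
      exact h'
    obtain ⟨h5, h6⟩ := w35 up res y w hw (by omega) h3 h4
    exact ⟨w, y, h1, h2, h5, h6, fiveW w y hw hy h4⟩
  refine ⟨fun n hn h => ⟨fun hs => key n hn h hs, fun a m b k h1 h2 h3 h4 => Val.rel h h1 h2 h3 h4,
    fun a m b k h1 h2 h3 h4 => Val.rel3 h h1 h2 h3 h4, fun h1 h2 h3 => Val.sqf h1 h h2 h3⟩, ?_⟩
  intro N hN
  classical
  have hc := cnt N hN
  refine le_trans (Finset.card_le_card ?_) hc
  intro n hn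
  rw [Finset.mem_filter] at hn ⊢
  obtain ⟨h1, h2, h3⟩ := hn
  obtain ⟨w, y, e1, e2, -⟩ := key n (Finset.mem_Icc.1 h1).1 h2 (Or.inl h3)
  exact ⟨h1, w, y, e1, e2⟩

end Pool.Agent.Results.MP_cb3c8e_nt.OddValues
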